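import Mathlib
import Pool.Agent.Helper9.NS
import Pool.Agent.Helper40.CX.H83KPA.Alg
import Pool.Agent.Helper40.CX.Good2

namespace CX

/-!
# KP: the plane cubic over the field of its points at infinity

`Ω = L (s, t)` is the function field of a plane cubic with the points `v m` at infinity; the functions
`r m = s - v m t` and the Weierstrass coordinate `x` are transcendental over `L`, `Ω = L (r m, w m) = L (x, y)`, and the point
`(s, t)` is determined by its Weierstrass coordinates.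
-/

set_option linter.unusedSectionVars false

namespace Pool.Agent.Helper67.KP

open Polynomial Pool.Agent.Helper15.KP

universe u

section maps

variable {R S : Type*} [CommRing R] [CommRing S]

lemma map_cub (f : R →+* S) (c : Fin 10 → R) (s t : R) :
    f (cub c s t) = cub (fun j => f (c j)) (f s) (f t) := by
  simp only [cub, map_add, map_mul, map_pow]

lemma map_xx (f : R →+* S) (c : Fin 10 → R) (v : Fin 3 → R) (i k m : Fin 3) (s t : R) :
    f (xx c v i k m s t) = xx (fun j => f (c j)) (fun j => f (v j)) i k m (f s) (f t) := by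
  simp only [xx, xr, q3, q2, ww, a1, a0, b2, b1, b0, map_add, map_mul, map_pow, map_sub, map_ofNat]

lemma map_yy (f : R →+* S) (c : Fin 10 → R) (v : Fin 3 → R) (i k m : Fin 3) (s t : R) :
    f (yy c v i k m s t) = yy (fun j => f (c j)) (fun j => f (v j)) i k m (f s) (f t) := by
  simp only [yy, yr, q3, q2, q1, ww, a1, a0, b2, b1, b0, map_add, map_mul, map_pow, map_sub, map_ofNat]

lemma map_PS (f : R →+* S) (c : Fin 10 → R) : f (PS c) = PS (fun j => f (c j)) := by
  simp only [PS, map_add, map_mul, map_pow, map_sub, map_neg, map_ofNat]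

lemma map_PT (f : R →+* S) (c : Fin 10 → R) : f (PT c) = PT (fun j => f (c j)) := by
  simp only [PT, map_add, map_mul, map_pow, map_sub, map_neg, map_ofNat]

lemma map_Dsc (f : R →+* S) (c : Fin 10 → R) : f (Dsc c) = Dsc (fun j => f (c j)) := by
  rw [Dsc, map_add, map_pow, map_pow, map_PS, map_PT, Dsc]

lemma map_Rts (f : R →+* S) {c : Fin 10 → R} {v : Fin 3 → R} (h : Rts c v) :
    Rts (fun j => f (c j)) (fun j => f (v j)) := by
  obtain ⟨h1, h2, h3⟩ := h
  refine ⟨?_, ?_, ?_⟩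
  · have h := congrArg f h1
    simpa only [map_add, map_mul, map_neg] using h
  · have h := congrArg f h2
    simpa only [map_add, map_mul] using h
  · have h := congrArg f h3
    simpa only [map_mul, map_neg] using h

/-- Applying a permutation of the roots. -/
lemma xx_perm (c : Fin 10 → R) (v : Fin 3 → R) (σ : Fin 3 → Fin 3) (i k m : Fin 3) (s t : R) :
    xx c (fun j => v (σ j)) i k m s t = xx c v (σ i) (σ k) (σ m) s t := rfl

lemma yy_perm (c : Fin 10 → R) (v : Fin 3 → R) (σ : Fin 3 → Fin 3) (i k m : Fin 3) (s t : R) :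
    yy c (fun j => v (σ j)) i k m s t = yy c v (σ i) (σ k) (σ m) s t := rfl

end maps

/-- A quartic with a double root. -/
lemma disc_of_double {K : Type*} [CommRing K] (e4 e3 e2 e1 e0 d : K)
    (h0 : e4 * d ^ 4 + e3 * d ^ 3 + e2 * d ^ 2 + e1 * d + e0 = 0)
    (h1 : 4 * e4 * d ^ 3 + 3 * e3 * d ^ 2 + 2 * e2 * d + e1 = 0) :
    4 * (12 * e4 * e0 - 3 * e3 * e1 + e2 ^ 2) ^ 3 =
      (72 * e4 * e2 * e0 + 9 * e3 * e2 * e1 - 27 * e4 * e1 ^ 2 - 27 * e0 * e3 ^ 2 - 2 * e2 ^ 3) ^ 2 := by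
  have e1' : e1 = -(4 * e4 * d ^ 3 + 3 * e3 * d ^ 2 + 2 * e2 * d) := by linear_combination h1
  have e0' : e0 = -(e4 * d ^ 4 + e3 * d ^ 3 + e2 * d ^ 2 + e1 * d) := by linear_combination h0
  subst e0'
  subst e1'
  ring

/-- The cubic does not contain the line `s = d + v t`. -/
lemma no_line {K : Type*} [Field K] [Good K] {c : Fin 10 → K} (hD : Dsc c ≠ 0) {v : K}
    (h : bin c v = 0) (d : K) (h1 : a1 c v * d + a0 c v = 0) (h2 : b2 c v * d ^ 2 + b1 c v * d + b0 c v = 0)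
    (h3 : c 0 * d ^ 3 + c 2 * d ^ 2 + c 5 * d + c 9 = 0) : False := by
  apply hD
  have e0 : q4 c v * d ^ 4 + q3 c v * d ^ 3 + q2 c v * d ^ 2 + q1 c v * d + q0 c v = 0 := by
    have : q4 c v * d ^ 4 + q3 c v * d ^ 3 + q2 c v * d ^ 2 + q1 c v * d + q0 c v =
        (b2 c v * d ^ 2 + b1 c v * d + b0 c v) ^ 2 -
          4 * (a1 c v * d + a0 c v) * (c 0 * d ^ 3 + c 2 * d ^ 2 + c 5 * d + c 9) := by
      unfold q4 q3 q2 q1 q0; ring
    rw [this, h1, h2]; ring
  have e1 : 4 * q4 c v * d ^ 3 + 3 * q3 c v * d ^ 2 + 2 * q2 c v * d + q1 c v = 0 := by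
    have : 4 * q4 c v * d ^ 3 + 3 * q3 c v * d ^ 2 + 2 * q2 c v * d + q1 c v =
        2 * (b2 c v * d ^ 2 + b1 c v * d + b0 c v) * (2 * b2 c v * d + b1 c v) -
          4 * (a1 c v * (c 0 * d ^ 3 + c 2 * d ^ 2 + c 5 * d + c 9) +
            (a1 c v * d + a0 c v) * (3 * c 0 * d ^ 2 + 2 * c 2 * d + c 5)) := by
      unfold q4 q3 q2 q1; ring
    rw [this, h1, h2, h3]; ring
  have key := disc_of_double _ _ _ _ _ _ e0 e1
  have hS := PS_eq h
  have hT := PT_eq h
  have h4 : 4 * Dsc c = 0 := by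
    unfold Dsc
    rw [hS]
    linear_combination (-1 : K) * key + (2 * PT c - (72 * q4 c v * q2 c v * q0 c v + 9 * q3 c v * q2 c v * q1 c v -
      27 * q4 c v * q1 c v ^ 2 - 27 * q0 c v * q3 c v ^ 2 - 2 * q2 c v ^ 3)) * hT
  have h5 : (4 : K) ≠ 0 := by norm_num
  exact (mul_eq_zero.mp h4).resolve_left h5

/-- The equation for `w` from `x`. -/
lemma w_of_x {K : Type*} [Field K] {q e3 e2 r w : K} (hq : q ≠ 0) (h2 : (2 : K) ≠ 0) (h3 : (3 : K) ≠ 0) :
    w = (xr q e3 e2 r w / 3 - 3 * e3 * r - e2) / (6 * q) - q * r ^ 2 := by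
  have h6 : (6 : K) ≠ 0 := by
    have : (6 : K) = 2 * 3 := by norm_num
    rw [this]; exact mul_ne_zero h2 h3
  unfold xr
  field_simp
  ring

/-- The plane cubic over the field `L` of its points at infinity. -/
structure Cfg (L Ω : Type u) [Field L] [Field Ω] [Algebra L Ω] where
  c : Fin 10 → L
  v : Fin 3 → L
  hR : Rts c v
  c0 : c 0 ≠ 0
  hv : Function.Injective v
  dsc : Dsc c ≠ 0
  s : Ω
  t : Ω
  eqn : cub (fun j => algebraMap L Ω (c j)) s t = 0
  tr : Transcendental L s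
  gen : IntermediateField.adjoin L {s, t} = ⊤

namespace Cfg

variable {L Ω : Type u} [Field L] [Field Ω] [Algebra L Ω] [Good L] (D : Cfg L Ω)

/-- the coefficients in `Ω` -/
abbrev C : Fin 10 → Ω := fun j => algebraMap L Ω (D.c j)
/-- the roots in `Ω` -/
abbrev V : Fin 3 → Ω := fun j => algebraMap L Ω (D.v j)

/-- the projection from the point `m` at infinity -/
def r (m : Fin 3) : Ω := D.s - D.V m * D.t
/-- the square root of the discriminant -/
def w (m : Fin 3) : Ω := ww D.C (D.V m) D.s D.t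

lemma bin_eq (m : Fin 3) : bin D.c (D.v m) = 0 := Pool.Agent.Helper15.KP.bin_eq D.hR m

lemma hRC : Rts D.C D.V := map_Rts (algebraMap L Ω) D.hR

lemma binC (m : Fin 3) : bin D.C (D.V m) = 0 := Pool.Agent.Helper15.KP.bin_eq D.hRC m

lemma a1_ne (m : Fin 3) : a1 D.c (D.v m) ≠ 0 := by
  obtain ⟨h1, h2, h3⟩ := D.hR
  have key : ∀ i j : Fin 3, i ≠ j → D.v i - D.v j ≠ 0 := fun i j h =>
    sub_ne_zero.mpr fun h' => h (D.hv h')
  fin_cases m
  · have : a1 D.c (D.v 0) = D.c 0 * ((D.v 0 - D.v 1) * (D.v 0 - D.v 2)) := by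
      unfold a1; rw [h1, h2]; ring
    change a1 D.c (D.v 0) ≠ 0
    rw [this]
    exact mul_ne_zero D.c0 (mul_ne_zero (key 0 1 (by decide)) (key 0 2 (by decide)))
  · have : a1 D.c (D.v 1) = D.c 0 * ((D.v 1 - D.v 0) * (D.v 1 - D.v 2)) := by
      unfold a1; rw [h1, h2]; ring
    change a1 D.c (D.v 1) ≠ 0
    rw [this]
    exact mul_ne_zero D.c0 (mul_ne_zero (key 1 0 (by decide)) (key 1 2 (by decide)))
  · have : a1 D.c (D.v 2) = D.c 0 * ((D.v 2 - D.v 0) * (D.v 2 - D.v 1)) := by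
      unfold a1; rw [h1, h2]; ring
    change a1 D.c (D.v 2) ≠ 0
    rw [this]
    exact mul_ne_zero D.c0 (mul_ne_zero (key 2 0 (by decide)) (key 2 1 (by decide)))

lemma a1C (m : Fin 3) : a1 D.C (D.V m) = algebraMap L Ω (a1 D.c (D.v m)) := by
  simp only [a1, map_add, map_mul, map_pow, map_ofNat]

lemma a0C (m : Fin 3) : a0 D.C (D.V m) = algebraMap L Ω (a0 D.c (D.v m)) := by
  simp only [a0, map_add, map_mul, map_pow]

/-- The equation of the cubic on the lines through the point at infinity. -/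
lemma line_eq {R : Type*} [CommRing R] {c : Fin 10 → R} {v s t : R} (h : bin c v = 0) (h0 : cub c s t = 0) :
    (a1 c v * (s - v * t) + a0 c v) * t ^ 2 +
      (b2 c v * (s - v * t) ^ 2 + b1 c v * (s - v * t) + b0 c v) * t +
      (c 0 * (s - v * t) ^ 3 + c 2 * (s - v * t) ^ 2 + c 5 * (s - v * t) + c 9) = 0 := by
  unfold bin at h
  unfold cub at h0
  unfold a1 a0 b2 b1 b0
  linear_combination h0 - t ^ 3 * h

open IntermediateField in
/-- `r` is transcendental. -/
theorem tr_r (m : Fin 3) : Transcendental L (D.r m) := by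
  intro hr
  set M : IntermediateField L Ω := algebraicClosure L Ω with hM
  have hrM : D.r m ∈ M := mem_algebraicClosure_iff.mpr hr
  have hcM : ∀ z : L, algebraMap L Ω z ∈ M := fun z => M.algebraMap_mem z
  have ht : Transcendental M D.t := by
    intro h
    apply D.tr
    have h1 : IsAlgebraic M D.s := by
      have e : D.s = (⟨D.r m, hrM⟩ : M) • (1 : Ω) + (⟨_, hcM (D.v m)⟩ : M) • D.t := by
        change D.s = D.r m * 1 + D.V m * D.t
        unfold r; ring
      rw [e]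
      exact (isAlgebraic_one.smul _).add (h.smul _)
    exact h1.restrictScalars L
  have hq := line_eq (D.binC m) D.eqn
  have hpoly : ∀ x y z : M, (x : Ω) * D.t ^ 2 + (y : Ω) * D.t + z = 0 → x = 0 ∧ y = 0 ∧ z = 0 := by
    intro x y z hxyz
    have h1 : aeval D.t (Polynomial.C x * X ^ 2 + Polynomial.C y * X + Polynomial.C z : M[X]) = 0 := by
      simpa using hxyz
    have h2 := (transcendental_iff.mp ht) _ h1
    refine ⟨?_, ?_, ?_⟩
    · have := congrArg (fun p => coeff p 2) h2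
      simpa [coeff_X, coeff_C] using this
    · have := congrArg (fun p => coeff p 1) h2
      simpa [coeff_X, coeff_C] using this
    · have := congrArg (fun p => coeff p 0) h2
      simpa [coeff_X, coeff_C] using this
  set rM : M := ⟨D.r m, hrM⟩ with hrM'
  set cM : Fin 10 → M := fun j => algebraMap L M (D.c j) with hcM'
  have hcoe : ∀ j, ((cM j : M) : Ω) = D.C j := fun j => rfl
  set vM : M := algebraMap L M (D.v m) with hvM
  have hvcoe : ((vM : M) : Ω) = D.V m := rfl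
  obtain ⟨h1, h2, h3⟩ := hpoly (a1 cM vM * rM + a0 cM vM) (b2 cM vM * rM ^ 2 + b1 cM vM * rM + b0 cM vM)
    (cM 0 * rM ^ 3 + cM 2 * rM ^ 2 + cM 5 * rM + cM 9) (by
      simp only [a1, a0, b2, b1, b0] at hq ⊢
      push_cast
      exact hq)
  have hD : Dsc cM ≠ 0 := by
    rw [hcM', ← map_Dsc (algebraMap L M)]
    exact (_root_.map_ne_zero _).mpr D.dsc
  have hb : bin cM vM = 0 := by
    have := congrArg (algebraMap L M) (D.bin_eq m)
    rw [map_zero] at this
    rw [← this]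
    simp only [bin, map_add, map_mul, map_pow, hcM', hvM]
  have : Good M := Good.ext L
  exact no_line hD hb rM h1 h2 h3

/-! ### The quartic -/

/-- the quartic polynomial -/
noncomputable def Q (m : Fin 3) : L[X] :=
  Polynomial.C (q4 D.c (D.v m)) * X ^ 4 + Polynomial.C (q3 D.c (D.v m)) * X ^ 3 +
    Polynomial.C (q2 D.c (D.v m)) * X ^ 2 + Polynomial.C (q1 D.c (D.v m)) * X + Polynomial.C (q0 D.c (D.v m))

lemma w_sq (m : Fin 3) : D.w m ^ 2 = aeval (D.r m) (D.Q m) := by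
  have h := ww_sq (D.binC m) D.eqn
  unfold w r Q
  rw [h]
  simp only [map_add, map_mul, map_pow, aeval_C, aeval_X, q4, q3, q2, q1, q0, a1, a0, b2, b1, b0, map_sub,
    map_ofNat]

lemma Q_not_sq (m : Fin 3) (g : L[X]) : g ^ 2 ≠ D.Q m := not_sq D.dsc (D.bin_eq m) g

lemma a_ne (m : Fin 3) {r : Ω} (hr : Transcendental L r) : a1 D.C (D.V m) * r + a0 D.C (D.V m) ≠ 0 := by
  intro h
  rw [a1C, a0C] at h
  have h1 : aeval r (Polynomial.C (a1 D.c (D.v m)) * X + Polynomial.C (a0 D.c (D.v m))) = 0 := by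
    simpa using h
  have h2 := (transcendental_iff.mp hr) _ h1
  have h3 := congrArg (fun p => coeff p 1) h2
  have h4 : a1 D.c (D.v m) = 0 := by simpa [coeff_X, coeff_C] using h3
  exact D.a1_ne m h4

lemma t_eq (m : Fin 3) : D.t = (D.w m - (b2 D.C (D.V m) * D.r m ^ 2 + b1 D.C (D.V m) * D.r m + b0 D.C (D.V m))) /
    (2 * (a1 D.C (D.V m) * D.r m + a0 D.C (D.V m))) := by
  have h := D.a_ne m (D.tr_r m)
  have h2 : (2 : Ω) ≠ 0 := by
    have := (algebraMap L Ω).injective.ne (two_ne_zero (α := L))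
    rwa [map_ofNat, map_zero] at this
  rw [eq_div_iff (mul_ne_zero h2 h)]
  unfold w ww r
  ring

include D in
lemma two_ne : (2 : Ω) ≠ 0 := by
  have := (algebraMap L Ω).injective.ne (two_ne_zero (α := L))
  rwa [map_ofNat, map_zero] at this

include D in
lemma three_ne : (3 : Ω) ≠ 0 := by
  have := (algebraMap L Ω).injective.ne (three_ne_zero (α := L))
  rwa [map_ofNat, map_zero] at this

/-- the leading coefficient `q` -/
def q (i k : Fin 3) : Ω := D.C 0 * (D.V i - D.V k)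

lemma q_ne {i k : Fin 3} (h : i ≠ k) : D.q i k ≠ 0 := by
  unfold q
  refine mul_ne_zero ((_root_.map_ne_zero _).mpr D.c0) (sub_ne_zero.mpr fun h' => h ?_)
  exact D.hv ((algebraMap L Ω).injective h')

/-! ### The Weierstrass coordinates -/

lemma tr_closure {z : Ω} (hz : Transcendental L z) : Transcendental (algebraicClosure L Ω) z :=
  fun h => hz (h.restrictScalars L)

theorem tr_x {i k m : Fin 3} (h1 : i ≠ k) (h2 : k ≠ m) (h3 : m ≠ i) :
    Transcendental L (xx D.C D.V i k m D.s D.t) := by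
  intro hx
  set M : IntermediateField L Ω := algebraicClosure L Ω with hM
  have hxM : xx D.C D.V i k m D.s D.t ∈ M := mem_algebraicClosure_iff.mpr hx
  have hrt : Transcendental M (D.r m) := tr_closure (D.tr_r m)
  set xM : M := ⟨_, hxM⟩ with hxM'
  set cM : Fin 10 → M := fun j => algebraMap L M (D.c j) with hcM'
  set vM : Fin 3 → M := fun j => algebraMap L M (D.v j) with hvM'
  have hRM : Rts cM vM := map_Rts (algebraMap L M) D.hR
  have hD : Dsc cM ≠ 0 := by
    rw [hcM', ← map_Dsc (algebraMap L M)]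
    exact (_root_.map_ne_zero _).mpr D.dsc
  have hb : bin cM (vM m) = 0 := Pool.Agent.Helper15.KP.bin_eq hRM m
  set qM : M := cM 0 * (vM i - vM k) with hqM
  have hqc : ((qM : M) : Ω) = D.q i k := rfl
  have hqne := D.q_ne h1
  have hqMne : qM ≠ 0 := fun h => hqne (by rw [← hqc, h]; rfl)
  have h6 : (6 : Ω) ≠ 0 := by
    have : (6 : Ω) = 2 * 3 := by norm_num
    rw [this]; exact mul_ne_zero D.two_ne D.three_ne
  let g : M[X] := Polynomial.C (-qM) * X ^ 2 - Polynomial.C (3 * q3 cM (vM m) / (6 * qM)) * X +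
    Polynomial.C ((xM / 3 - q2 cM (vM m)) / (6 * qM))
  have hg : aeval (D.r m) g = D.w m := by
    have hw := w_of_x (q := D.q i k) (e3 := q3 D.C (D.V m)) (e2 := q2 D.C (D.V m)) (r := D.r m)
      (w := D.w m) hqne D.two_ne D.three_ne
    have e1 : algebraMap M Ω (q3 cM (vM m)) = q3 D.C (D.V m) := by
      simp only [q3, a1, a0, b2, b1, map_add, map_mul, map_sub, map_pow, map_ofNat]
      rfl
    have e2 : algebraMap M Ω (q2 cM (vM m)) = q2 D.C (D.V m) := by
      simp only [q2, a1, a0, b2, b1, b0, map_add, map_mul, map_sub, map_pow, map_ofNat]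
      rfl
    have e3 : algebraMap M Ω xM = xr (D.q i k) (q3 D.C (D.V m)) (q2 D.C (D.V m)) (D.r m) (D.w m) := rfl
    have e4 : algebraMap M Ω qM = D.q i k := rfl
    rw [hw]
    have h3' := D.three_ne
    have h2' := D.two_ne
    simp only [g, map_add, map_sub, map_mul, map_pow, aeval_C, aeval_X, map_neg, map_div₀, map_ofNat, e1, e2, e3, e4]
    field_simp
    ring
  have hsq : aeval (D.r m) (g ^ 2 - (Polynomial.C (q4 cM (vM m)) * X ^ 4 + Polynomial.C (q3 cM (vM m)) * X ^ 3 +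
      Polynomial.C (q2 cM (vM m)) * X ^ 2 + Polynomial.C (q1 cM (vM m)) * X + Polynomial.C (q0 cM (vM m)))) = 0 := by
    rw [map_sub, map_pow, hg, D.w_sq]
    unfold Q
    simp only [map_add, map_mul, map_pow, aeval_C, aeval_X, q4, q3, q2, q1, q0, a1, a0, b2, b1, b0, map_sub,
      map_ofNat]
    simp only [hcM', hvM', ← IsScalarTower.algebraMap_apply]
    ring
  have h5 := (transcendental_iff.mp hrt) _ hsq
  have : Good M := Good.ext L
  exact not_sq hD hb g (sub_eq_zero.mp h5)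

/-- The linear equation for `r` is not trivial. -/
lemma den_ne {i k : Fin 3} (h1 : i ≠ k) (m : Fin 3) {x : Ω} (hx : Transcendental L x) :
    (D.q i k) ^ 2 * 24 * x + 144 * (D.q i k) ^ 2 * q2 D.C (D.V m) - 54 * q3 D.C (D.V m) ^ 2 ≠ 0 := by
  intro h
  have e1 : algebraMap L Ω (D.c 0 * (D.v i - D.v k)) = D.q i k := by
    rw [map_mul, map_sub]; rfl
  have e2 : algebraMap L Ω (q2 D.c (D.v m)) = q2 D.C (D.V m) := by
    simp only [q2, a1, a0, b2, b1, b0, map_add, map_mul, map_sub, map_pow, map_ofNat]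
  have e3 : algebraMap L Ω (q3 D.c (D.v m)) = q3 D.C (D.V m) := by
    simp only [q3, a1, a0, b2, b1, map_add, map_mul, map_sub, map_pow, map_ofNat]
  obtain ⟨A, hA⟩ : ∃ A : L, A = (D.c 0 * (D.v i - D.v k)) ^ 2 * 24 := ⟨_, rfl⟩
  obtain ⟨B, hB⟩ : ∃ B : L, B = 144 * (D.c 0 * (D.v i - D.v k)) ^ 2 * q2 D.c (D.v m) -
    54 * q3 D.c (D.v m) ^ 2 := ⟨_, rfl⟩
  have hA' : algebraMap L Ω A = D.q i k ^ 2 * 24 := by
    rw [hA, map_mul, map_pow, e1, map_ofNat]
  have hB' : algebraMap L Ω B = 144 * (D.q i k) ^ 2 * q2 D.C (D.V m) - 54 * q3 D.C (D.V m) ^ 2 := by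
    rw [hB, map_sub, map_mul, map_mul, map_pow, e1, map_ofNat, e2, map_mul, map_pow, e3, map_ofNat]
  have h2 : aeval x (Polynomial.C A * X + Polynomial.C B) = 0 := by
    rw [map_add, map_mul, aeval_C, aeval_C, aeval_X, hA', hB']
    linear_combination h
  have h3 := (transcendental_iff.mp hx) _ h2
  have h4 := congrArg (fun p => coeff p 1) h3
  have h5 : A = 0 := by simpa [coeff_X, coeff_C] using h4
  have h6 : D.c 0 * (D.v i - D.v k) ≠ 0 := mul_ne_zero D.c0 (sub_ne_zero.mpr fun h' => h1 (D.hv h'))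
  have h7 : (24 : L) ≠ 0 := by norm_num
  rw [hA] at h5
  exact mul_ne_zero (pow_ne_zero 2 h6) h7 h5

/-- The point is determined by its Weierstrass coordinates. -/
theorem det {i k m : Fin 3} (h1 : i ≠ k) {s₁ t₁ s₂ t₂ : Ω}
    (hx : xx D.C D.V i k m s₁ t₁ = xx D.C D.V i k m s₂ t₂)
    (hy : yy D.C D.V i k m s₁ t₁ = yy D.C D.V i k m s₂ t₂)
    (hxt : Transcendental L (xx D.C D.V i k m s₂ t₂)) (hrt : Transcendental L (s₂ - D.V m * t₂)) :
    s₁ = s₂ ∧ t₁ = t₂ := by
  have hq := D.q_ne h1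
  have i1 := inv_r (D.q i k) (q3 D.C (D.V m)) (q2 D.C (D.V m)) (q1 D.C (D.V m)) (s₁ - D.V m * t₁)
    (ww D.C (D.V m) s₁ t₁)
  have i2 := inv_r (D.q i k) (q3 D.C (D.V m)) (q2 D.C (D.V m)) (q1 D.C (D.V m)) (s₂ - D.V m * t₂)
    (ww D.C (D.V m) s₂ t₂)
  change xr (D.q i k) (q3 D.C (D.V m)) (q2 D.C (D.V m)) (s₁ - D.V m * t₁) (ww D.C (D.V m) s₁ t₁) =
    xr (D.q i k) (q3 D.C (D.V m)) (q2 D.C (D.V m)) (s₂ - D.V m * t₂) (ww D.C (D.V m) s₂ t₂) at hx
  change yr (D.q i k) (q3 D.C (D.V m)) (q2 D.C (D.V m)) (q1 D.C (D.V m)) (s₁ - D.V m * t₁)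
      (ww D.C (D.V m) s₁ t₁) =
    yr (D.q i k) (q3 D.C (D.V m)) (q2 D.C (D.V m)) (q1 D.C (D.V m)) (s₂ - D.V m * t₂)
      (ww D.C (D.V m) s₂ t₂) at hy
  have hden := D.den_ne h1 m hxt
  change (D.q i k) ^ 2 * 24 * xr (D.q i k) (q3 D.C (D.V m)) (q2 D.C (D.V m)) (s₂ - D.V m * t₂)
    (ww D.C (D.V m) s₂ t₂) + 144 * (D.q i k) ^ 2 * q2 D.C (D.V m) - 54 * q3 D.C (D.V m) ^ 2 ≠ 0 at hden
  rw [hx, hy] at i1
  have hr : s₁ - D.V m * t₁ = s₂ - D.V m * t₂ := by
    refine mul_right_cancel₀ hden ?_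
    linear_combination i2 - i1
  have hw1 := w_of_x (q := D.q i k) (e3 := q3 D.C (D.V m)) (e2 := q2 D.C (D.V m)) (r := s₁ - D.V m * t₁)
    (w := ww D.C (D.V m) s₁ t₁) hq D.two_ne D.three_ne
  have hw2 := w_of_x (q := D.q i k) (e3 := q3 D.C (D.V m)) (e2 := q2 D.C (D.V m)) (r := s₂ - D.V m * t₂)
    (w := ww D.C (D.V m) s₂ t₂) hq D.two_ne D.three_ne
  have hw : ww D.C (D.V m) s₁ t₁ = ww D.C (D.V m) s₂ t₂ := by
    rw [hw1, hw2, hx, hr]
  have ht : t₁ = t₂ := by
    unfold ww at hw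
    rw [hr] at hw
    have h4 := D.a_ne m hrt
    have h5 : 2 * (a1 D.C (D.V m) * (s₂ - D.V m * t₂) + a0 D.C (D.V m)) ≠ 0 := mul_ne_zero D.two_ne h4
    refine mul_left_cancel₀ h5 ?_
    linear_combination hw
  refine ⟨?_, ht⟩
  rw [ht] at hr
  linear_combination hr

/-- `Ω = L (r m, w m)`. -/
theorem gen_rw (m : Fin 3) : IntermediateField.adjoin L {D.r m, D.w m} = ⊤ := by
  rw [eq_top_iff, ← D.gen, IntermediateField.adjoin_le_iff]
  set N := IntermediateField.adjoin L {D.r m, D.w m} with hN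
  have hr : D.r m ∈ N := IntermediateField.subset_adjoin _ _ (Or.inl rfl)
  have hw : D.w m ∈ N := IntermediateField.subset_adjoin _ _ (Or.inr rfl)
  have hC : ∀ j, D.C j ∈ N := fun j => N.algebraMap_mem _
  have hV : ∀ j, D.V j ∈ N := fun j => N.algebraMap_mem _
  have e2 : b2 D.C (D.V m) ∈ N := by
    have : b2 D.C (D.V m) = algebraMap L Ω (b2 D.c (D.v m)) := by
      simp only [b2, map_add, map_mul, map_ofNat]
    rw [this]; exact N.algebraMap_mem _
  have e1 : b1 D.C (D.V m) ∈ N := by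
    have : b1 D.C (D.V m) = algebraMap L Ω (b1 D.c (D.v m)) := by
      simp only [b1, map_add, map_mul, map_ofNat]
    rw [this]; exact N.algebraMap_mem _
  have e0 : b0 D.C (D.V m) ∈ N := by
    have : b0 D.C (D.V m) = algebraMap L Ω (b0 D.c (D.v m)) := by
      simp only [b0, map_add, map_mul]
    rw [this]; exact N.algebraMap_mem _
  have ea1 : a1 D.C (D.V m) ∈ N := by rw [a1C]; exact N.algebraMap_mem _
  have ea0 : a0 D.C (D.V m) ∈ N := by rw [a0C]; exact N.algebraMap_mem _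
  have h2 : (2 : Ω) ∈ N := by
    have := N.algebraMap_mem (2 : L)
    rwa [map_ofNat] at this
  have ht : D.t ∈ N := by
    rw [D.t_eq m]
    exact N.div_mem (N.sub_mem hw (N.add_mem (N.add_mem (N.mul_mem e2 (pow_mem hr 2)) (N.mul_mem e1 hr)) e0))
      (N.mul_mem h2 (N.add_mem (N.mul_mem ea1 hr) ea0))
  have hs : D.s ∈ N := by
    have : D.s = D.r m + D.V m * D.t := by unfold r; ring
    rw [this]
    exact N.add_mem hr (N.mul_mem (hV m) ht)
  rintro z (rfl | rfl)
  · exact hs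
  · exact ht

/-- `Ω = L (x, y)`. -/
theorem gen_xy {i k m : Fin 3} (h1 : i ≠ k) (h2 : k ≠ m) (h3 : m ≠ i) :
    IntermediateField.adjoin L {xx D.C D.V i k m D.s D.t, yy D.C D.V i k m D.s D.t} = ⊤ := by
  rw [eq_top_iff, ← D.gen_rw m, IntermediateField.adjoin_le_iff]
  set N := IntermediateField.adjoin L {xx D.C D.V i k m D.s D.t, yy D.C D.V i k m D.s D.t} with hN
  have hx : xx D.C D.V i k m D.s D.t ∈ N := IntermediateField.subset_adjoin _ _ (Or.inl rfl)
  have hy : yy D.C D.V i k m D.s D.t ∈ N := IntermediateField.subset_adjoin _ _ (Or.inr rfl)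
  have hnat : ∀ n : ℕ, (n : Ω) ∈ N := fun n => natCast_mem N n
  have hq : D.q i k ∈ N := N.mul_mem (N.algebraMap_mem _) (N.sub_mem (N.algebraMap_mem _) (N.algebraMap_mem _))
  have e3 : q3 D.C (D.V m) ∈ N := by
    have : q3 D.C (D.V m) = algebraMap L Ω (q3 D.c (D.v m)) := by
      simp only [q3, a1, a0, b2, b1, map_add, map_mul, map_sub, map_pow, map_ofNat]
    rw [this]; exact N.algebraMap_mem _
  have e2 : q2 D.C (D.V m) ∈ N := by
    have : q2 D.C (D.V m) = algebraMap L Ω (q2 D.c (D.v m)) := by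
      simp only [q2, a1, a0, b2, b1, b0, map_add, map_mul, map_sub, map_pow, map_ofNat]
    rw [this]; exact N.algebraMap_mem _
  have e1 : q1 D.C (D.V m) ∈ N := by
    have : q1 D.C (D.V m) = algebraMap L Ω (q1 D.c (D.v m)) := by
      simp only [q1, a1, a0, b1, b0, map_add, map_mul, map_sub, map_ofNat, map_pow]
    rw [this]; exact N.algebraMap_mem _
  have hden := D.den_ne h1 m (D.tr_x h1 h2 h3)
  have i1 := inv_r (D.q i k) (q3 D.C (D.V m)) (q2 D.C (D.V m)) (q1 D.C (D.V m)) (D.r m) (D.w m)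
  change 4 * D.q i k * yy D.C D.V i k m D.s D.t = D.r m * ((D.q i k) ^ 2 * 24 * xx D.C D.V i k m D.s D.t +
    144 * (D.q i k) ^ 2 * q2 D.C (D.V m) - 54 * q3 D.C (D.V m) ^ 2) * 1 +
      (108 * (D.q i k) ^ 2 * q1 D.C (D.V m) + 6 * q3 D.C (D.V m) * xx D.C D.V i k m D.s D.t -
        18 * q3 D.C (D.V m) * q2 D.C (D.V m)) at i1
  have n4 : (4 : Ω) ∈ N := by exact_mod_cast hnat 4
  have n24 : (24 : Ω) ∈ N := by exact_mod_cast hnat 24
  have n144 : (144 : Ω) ∈ N := by exact_mod_cast hnat 144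
  have n54 : (54 : Ω) ∈ N := by exact_mod_cast hnat 54
  have n108 : (108 : Ω) ∈ N := by exact_mod_cast hnat 108
  have n6 : (6 : Ω) ∈ N := by exact_mod_cast hnat 6
  have n18 : (18 : Ω) ∈ N := by exact_mod_cast hnat 18
  have n3 : (3 : Ω) ∈ N := by exact_mod_cast hnat 3
  have hr : D.r m ∈ N := by
    have e : D.r m = (4 * D.q i k * yy D.C D.V i k m D.s D.t - (108 * (D.q i k) ^ 2 * q1 D.C (D.V m) +
        6 * q3 D.C (D.V m) * xx D.C D.V i k m D.s D.t - 18 * q3 D.C (D.V m) * q2 D.C (D.V m))) /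
        ((D.q i k) ^ 2 * 24 * xx D.C D.V i k m D.s D.t +
          144 * (D.q i k) ^ 2 * q2 D.C (D.V m) - 54 * q3 D.C (D.V m) ^ 2) := by
      rw [eq_div_iff hden]
      linear_combination -i1
    rw [e]
    refine N.div_mem (N.sub_mem (N.mul_mem (N.mul_mem n4 hq) hy) (N.sub_mem (N.add_mem
      (N.mul_mem (N.mul_mem n108 (pow_mem hq 2)) e1) (N.mul_mem (N.mul_mem n6 e3) hx))
      (N.mul_mem (N.mul_mem n18 e3) e2))) (N.sub_mem (N.add_mem (N.mul_mem (N.mul_mem (pow_mem hq 2) n24) hx)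
      (N.mul_mem (N.mul_mem n144 (pow_mem hq 2)) e2)) (N.mul_mem n54 (pow_mem e3 2)))
  have hw : D.w m ∈ N := by
    have hw := w_of_x (q := D.q i k) (e3 := q3 D.C (D.V m)) (e2 := q2 D.C (D.V m)) (r := D.r m)
      (w := D.w m) (D.q_ne h1) D.two_ne D.three_ne
    rw [hw]
    change (xx D.C D.V i k m D.s D.t / 3 - 3 * q3 D.C (D.V m) * D.r m - q2 D.C (D.V m)) / (6 * D.q i k) -
      D.q i k * D.r m ^ 2 ∈ N
    exact N.sub_mem (N.div_mem (N.sub_mem (N.sub_mem (N.div_mem hx n3) (N.mul_mem (N.mul_mem n3 e3) hr)) e2)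
      (N.mul_mem n6 hq)) (N.mul_mem hq (pow_mem hr 2))
  rintro z (rfl | rfl)
  · exact hr
  · exact hw

end Cfg

end Pool.Agent.Helper67.KP

end CX
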