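import Mathlib
import Pool.Agent.Helper9.NS
import Pool.Agent.Helper40.CX.H15GT.RZev
import Pool.Agent.Helper40.CX.H15GT.Lift
import Pool.Agent.Helper40.CX.H15GT.Ruled
import Pool.Agent.Helper40.CX.H15KP.Defs
import Pool.Agent.Helper40.CX.H21TO.Trans
import Pool.Agent.Helper40.CX.Good2

namespace CX

/-!
# KP: harmonic functions on rational places, traces and reflections

A function on the rational places of `F` is called harmonic if it is the pull back of a functional on a
projective model which vanishes on the cycles rationally equivalent to zero. The trace of a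
harmonic function to the fixed field of a finite group is harmonic. If `R` is an involution of `Ω`
over the field `L` and its fixed field is `L (r)`, then `u (w) + u (w R)` is a harmonic function of the
restriction of `w` to `L`.
-/

set_option linter.unusedSectionVars false

namespace Pool.Agent.Helper67.KP

open VC VF Function Polynomial Pool.Agent.Helper21.TO Pool.Agent.Helper15.GT Pool.Agent.Helper15.KP
open Pool.Agent.Helper51.VN (Harm)

universe u

variable {k : Type u} [Field k] [IsAlgClosed k] [Good k]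

lemma kills_cast {M : ℕ} {I I' : Set (MvPolynomial (Fin M) k)} (h : I' = I) {φ : (proj k I).Pt → ℂ}
    (hφ : Kills (proj k I) φ) : Kills (proj k I') (fun y => φ ⟨y.1, fun P hP => y.2 P (h ▸ hP)⟩) := by
  subst h
  exact hφ

lemma hf_evP {F : Type u} [Field F] [Algebra k F] {M : ℕ} (ξ : Fin M → F) (hξ : ξ ≠ 0)
    {φ : (proj k (van k ξ)).Pt → ℂ} (hφ : Kills (proj k (van k ξ)) φ) :
    HF k F (fun w => φ (evP ξ hξ w)) := ⟨M, ξ, hξ, φ, hφ, fun _ => rfl⟩

/-- The pull back of a harmonic function. -/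
theorem hf_comap {F F' : Type u} [Field F] [Algebra k F] [Field F'] [Algebra k F'] {u : RPl k F → ℂ}
    (hu : HF k F u) (f : F →ₐ[k] F') : HF k F' (fun w => u (w.comap f)) := by
  obtain ⟨M, ξ, hξ, φ, hφ, huφ⟩ := hu
  have hξ' : (fun i => f (ξ i)) ≠ 0 := by
    intro h0
    apply hξ
    funext i
    exact (map_eq_zero_iff f f.toRingHom.injective).mp (congrFun h0 i)
  refine ⟨M, fun i => f (ξ i), hξ', _, kills_cast (van_hom f ξ) hφ, fun w => ?_⟩
  obtain ⟨b, hb, hs, hv, he⟩ := exists_evP ξ hξ (w.comap f)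
  have h1 := hv.comap
  have h2 := huφ (w.comap f)
  rw [he] at h2
  refine h2.trans ?_
  have h3 := evP_eq hξ' h1 hb h1.sat
  have h4 : ∀ y : (proj k (van k fun i => f (ξ i))).Pt, y = ppt b hb h1.sat →
      φ (ppt b hb hs) = φ ⟨y.1, fun P hP => y.2 P ((van_hom f ξ) ▸ hP)⟩ := by
    rintro _ rfl
    rfl
  exact h4 _ h3

/-- The functional on `X` given by a functional on `S` and a correspondence. -/
theorem kills_push {X S : Variety k} {Z : X.Pt → S.Cycles} (hZ : Cor X S Z) {φ : S.Pt → ℂ}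
    (hφ : Kills S φ) : Kills X (fun y => Finsupp.linearCombination ℤ φ (Z y)) := by
  classical
  apply kills_of_gen
  intro K _ _ hK c f hf
  obtain ⟨K', iF', iA', iAK, iT, hK', hfam⟩ := hZ K hK 1 (fun _ => c)
  have hf' : algebraMap K K' f ≠ 0 := (_root_.map_ne_zero _).mpr hf
  refine Pool.Agent.Helper83.QF.kills_res hK hK' (fun v => Finsupp.linearCombination ℤ φ
    (Z (X.eval hK c v))) hf hf' ?_
  obtain ⟨r, P, e, hPe⟩ := hfam 0
  have key : ∀ w : Place k K', Finsupp.linearCombination ℤ φ (Z (X.eval hK c (VQ.res hK hK' w))) =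
      ∑ l, (e l : ℂ) * φ (S.eval hK' (P l) w) := by
    intro w
    have hPw : Z (X.eval hK c (VQ.res hK hK' w)) = _ := hPe w
    rw [hPw, map_sum]
    refine Finset.sum_congr rfl fun l _ => ?_
    rw [Finsupp.linearCombination_single, zsmul_eq_mul]
  simp only [key, Finset.mul_sum]
  rw [Finset.sum_comm]
  refine Finset.sum_eq_zero fun l _ => ?_
  have h4 : ∀ w ∈ (finite_support_ord hK' hf').toFinset, (ord w.ring (algebraMap K K' f) : ℂ) *
      ((e l : ℂ) * φ (S.eval hK' (P l) w)) =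
      (e l : ℂ) * ((ord w.ring (algebraMap K K' f) : ℂ) * φ (S.eval hK' (P l) w)) :=
    fun w _ => by ring
  rw [Finset.sum_congr rfl h4, ← Finset.mul_sum, hφ.gen hK' (P l) hf', mul_zero]

/-- The trace of a harmonic function to the fixed field of a finite group. -/
theorem hf_trace {F : Type u} [Field F] [Algebra k F] {G : Type u} [Group G]
    (ρ : G →* (F ≃ₐ[k] F)) (Γ : Subgroup G) [Fintype Γ] {u : RPl k F → ℂ} (hu : HF k F u) :
    ∃ U : RPl k (IntermediateField.fixedField (Γ.map ρ)) → ℂ,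
      HF k (IntermediateField.fixedField (Γ.map ρ)) U ∧
      ∀ w : RPl k F, U (w.comap (IntermediateField.val _)) =
        ∑ γ : Γ, u (w.comap ((ρ γ : F ≃ₐ[k] F) : F →ₐ[k] F)) := by
  classical
  obtain ⟨M, ξ, hξ, φ, hφ, huφ⟩ := hu
  have hd : Fintype.card Γ ≤ Fintype.card Γ := le_rfl
  have h1 := cor_Zc (k := k) hd (van k ξ) (tr ρ ξ (fun γ : Γ => (γ : G))) (fun j => by
    intro P hP n hn
    have h2 : P ∈ van k (fun i' => (ρ (j : G)) (ξ i')) := by
      rw [van_aut]
      exact hP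
    exact h2)
  rw [← van_fixV ρ ξ Γ (Fintype.card Γ)] at h1
  refine ⟨_, hf_evP (fixV ρ ξ Γ (Fintype.card Γ)) (fixV_ne_zero ρ hξ Γ hd) (kills_push h1 hφ),
    fun w => ?_⟩
  have h2 := Z_ev ρ hξ Γ hd w 1
  have e : (((ρ 1 : F ≃ₐ[k] F) : F →ₐ[k] F).comp (IntermediateField.val
      (IntermediateField.fixedField (Γ.map ρ)))) = IntermediateField.val _ := by
    ext z
    simp
  rw [e] at h2
  rw [h2, map_sum]
  refine Finset.sum_congr rfl fun γ _ => ?_
  rw [Finsupp.linearCombination_single, one_smul, one_mul, huφ]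

/-- Reflections: if `R` is an involution of `Ω` over `L` with fixed field `L (r)` then
`u (w) + u (w R)` is a harmonic function of the restriction of `w` to `L`. -/
theorem hf_refl {L Ω : Type u} [Field L] [Algebra k L] [Field Ω] [Algebra k Ω]
    (hL : IsFunctionField k L) (κ : L →ₐ[k] Ω) (R : Ω ≃ₐ[k] Ω) (hR : R * R = 1)
    (hR1 : R ≠ 1) (hRL : ∀ z : L, R (κ z) = κ z) (r : Ω) (hr : R r = r)
    (htr : ∀ p : L[X], p.eval₂ (κ : L →+* Ω) r = 0 → p = 0)
    (hfix : ∀ z : Ω, R z = z → ∃ p q : L[X], q.eval₂ (κ : L →+* Ω) r ≠ 0 ∧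
      z * q.eval₂ (κ : L →+* Ω) r = p.eval₂ (κ : L →+* Ω) r) {u : RPl k Ω → ℂ} (hu : HF k Ω u) :
    ∃ l : Place k L → ℂ, Harm hL l ∧
      ∀ w : RPl k Ω, u w + u (w.comap (R : Ω →ₐ[k] Ω)) = l (w.pl hL κ) := by
  classical
  have hmem : ∀ γ ∈ Subgroup.zpowers R, γ = 1 ∨ γ = R := by
    rintro γ ⟨n, rfl⟩
    have h2 : R ^ (2 : ℤ) = 1 := by
      rw [zpow_ofNat, pow_two, hR]
    rcases Int.even_or_odd' n with ⟨m, rfl | rfl⟩
    · left
      change R ^ (2 * m) = 1
      rw [zpow_mul, h2, one_zpow]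
    · right
      change R ^ (2 * m + 1) = R
      rw [zpow_add, zpow_mul, h2, one_zpow, one_mul, zpow_one]
  let _ : Fintype (Subgroup.zpowers R) :=
    { elems := {⟨1, Subgroup.one_mem _⟩, ⟨R, Subgroup.mem_zpowers R⟩}
      complete := fun γ => by
        rcases hmem γ γ.2 with h | h
        · exact Finset.mem_insert.mpr (Or.inl (Subtype.ext h))
        · exact Finset.mem_insert.mpr (Or.inr (Finset.mem_singleton.mpr (Subtype.ext h))) }
  obtain ⟨U, ⟨M, ξ, hξ, φ, hφ, hUφ⟩, hU⟩ := hf_trace (MonoidHom.id (Ω ≃ₐ[k] Ω)) (Subgroup.zpowers R) hu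
  have hfx : ∀ z : Ω, z ∈ IntermediateField.fixedField ((Subgroup.zpowers R).map
      (MonoidHom.id (Ω ≃ₐ[k] Ω))) ↔ R z = z := by
    intro z
    rw [IntermediateField.mem_fixedField_iff]
    constructor
    · intro h
      exact h R ⟨R, Subgroup.mem_zpowers R, rfl⟩
    · rintro h _ ⟨γ, hγ, rfl⟩
      rcases hmem γ hγ with h1 | h1
      · rw [h1]; rfl
      · rw [h1]; exact h
  let κ' : L →ₐ[k] IntermediateField.fixedField ((Subgroup.zpowers R).map
      (MonoidHom.id (Ω ≃ₐ[k] Ω))) := κ.codRestrict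
        (IntermediateField.fixedField ((Subgroup.zpowers R).map
      (MonoidHom.id (Ω ≃ₐ[k] Ω)))).toSubalgebra fun z => (hfx _).mpr (hRL z)
  have hev : ∀ p : L[X], ((p.eval₂ (κ' : L →+* _) (⟨r, (hfx r).mpr hr⟩ :
      IntermediateField.fixedField ((Subgroup.zpowers R).map
      (MonoidHom.id (Ω ≃ₐ[k] Ω)))) : IntermediateField.fixedField ((Subgroup.zpowers R).map
      (MonoidHom.id (Ω ≃ₐ[k] Ω)))) : Ω) = p.eval₂ (κ : L →+* Ω) r := by
    intro p
    exact Polynomial.hom_eval₂ p (κ' : L →+* IntermediateField.fixedField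
      ((Subgroup.zpowers R).map (MonoidHom.id (Ω ≃ₐ[k] Ω)))) ((IntermediateField.fixedField
      ((Subgroup.zpowers R).map (MonoidHom.id (Ω ≃ₐ[k] Ω)))).val.toRingHom) (⟨r, (hfx r).mpr hr⟩)
  obtain ⟨l, hl, hlw⟩ := ruled_base hL κ' ⟨r, (hfx r).mpr hr⟩ (fun p hp => by
      apply htr
      rw [← hev p, hp]
      rfl) (fun z => by
      obtain ⟨p, q, hq, hpq⟩ := hfix z ((hfx z).mp z.2)
      refine ⟨p, q, fun h0 => hq ?_, Subtype.ext ?_⟩
      · rw [← hev q, h0]
        rfl
      · rw [← hev q, ← hev p] at hpq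
        exact hpq) ξ hξ hφ
  refine ⟨l, hl, fun w => ?_⟩
  have h1 := hU w
  rw [hUφ, hlw] at h1
  have h2 : ∑ γ : Subgroup.zpowers R, u (w.comap ((MonoidHom.id (Ω ≃ₐ[k] Ω) γ : Ω ≃ₐ[k] Ω) : Ω →ₐ[k] Ω)) =
      u w + u (w.comap (R : Ω →ₐ[k] Ω)) := by
    change ∑ γ ∈ ({⟨1, Subgroup.one_mem _⟩, ⟨R, Subgroup.mem_zpowers R⟩} :
      Finset (Subgroup.zpowers R)), _ = _
    rw [Finset.sum_pair (fun h => hR1 (congrArg Subtype.val h).symm)]
    congr 1
  rw [h2] at h1
  rw [← h1]
  rfl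

end Pool.Agent.Helper67.KP

end CX
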