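import Mathlib
import Pool.Agent.Helper9.NS
import Pool.Agent.Helper40.CX.H67KP.Rfl
import Pool.Agent.Helper40.CX.H56KP.Quad
import Pool.Agent.Helper40.CX.H63KP.Trc
import Pool.Agent.Helper40.CX.H96KP.AlgC
import Pool.Agent.Helper40.CX.H70KX.Ind
import Pool.Agent.Helper40.CX.H15KP.Defs2
import Pool.Agent.Helper40.CX.Good2

namespace CX

/-!
# KP: the Galois closure of the surface of pairs over the twisted elliptic surface
-/

set_option linter.unusedSectionVars false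

namespace Pool.Agent.Helper67.KP

open VC VF Function Polynomial Pool.Agent.Helper21.TO Pool.Agent.Helper15.GT Pool.Agent.Helper15.KP
open Pool.Agent.Helper51.VN (Harm)

universe u

/-- A root of a polynomial of degree at most four is separable. -/
lemma sep_of_root {M Ω : Type*} [Field M] [Field Ω] [Algebra M Ω] [Good M] {p : M[X]} (hp : p ≠ 0)
    (hd : p.natDegree ≤ 4) {z : Ω} (hz : aeval z p = 0) : IsSeparable M z := by
  have hint : IsIntegral M z := isAlgebraic_iff_isIntegral.mp ⟨p, hp, hz⟩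
  have hle : (minpoly M z).natDegree ≤ 4 := (natDegree_le_of_dvd (minpoly.dvd M z hz) hp).trans hd
  have hpos : 0 < (minpoly M z).natDegree := minpoly.natDegree_pos hint
  have hne : ((minpoly M z).natDegree : M) ≠ 0 := by
    obtain ⟨n, hn⟩ : ∃ n, n = (minpoly M z).natDegree := ⟨_, rfl⟩
    rw [← hn] at hle hpos ⊢
    interval_cases n
    · simp
    · exact_mod_cast Good.n2 (K := M)
    · exact_mod_cast Good.n3 (K := M)
    · exact_mod_cast Good.n4 (K := M)
  change (minpoly M z).Separable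
  rw [separable_iff_derivative_ne_zero (minpoly.irreducible hint)]
  intro h0
  apply hne
  have h1 := congrArg (fun q : M[X] => q.coeff ((minpoly M z).natDegree - 1)) h0
  simp only [coeff_derivative, coeff_zero] at h1
  rw [Nat.sub_add_cancel hpos] at h1
  have h2 : (minpoly M z).coeff (minpoly M z).natDegree = 1 := minpoly.monic hint
  rw [h2, one_mul] at h1
  have h3 : (((minpoly M z).natDegree - 1 : ℕ) : M) + 1 = ((minpoly M z).natDegree : M) := by
    conv_rhs => rw [← Nat.sub_add_cancel hpos]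
    push_cast
    ring
  rw [← h3]
  exact h1

/-- A Galois criterion. -/
lemma gal_of_splits {M Ω : Type*} [Field M] [Field Ω] [Algebra M Ω] (p : M[X])
    (hs : (p.map (algebraMap M Ω)).Splits) (hp : p ≠ 0) (S : Set Ω) (hS : ∀ z ∈ S, aeval z p = 0)
    (hsep : ∀ z ∈ S, IsSeparable M z)
    (hg : ∀ z : Ω, z ∈ IntermediateField.adjoin M S) : IsGalois M Ω ∧ FiniteDimensional M Ω := by
  have h1 : p.IsSplittingField M Ω := by
    rw [isSplittingField_iff_intermediateField]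
    refine ⟨hs, ?_⟩
    rw [eq_top_iff]
    intro z _
    refine IntermediateField.adjoin.mono M _ _ ?_ (hg z)
    intro z hz
    exact (mem_rootSet_of_ne hp).mpr (hS z hz)
  have h2 : FiniteDimensional M Ω := IsSplittingField.finiteDimensional Ω p
  have h3 : Normal M Ω := Normal.of_isSplittingField p
  have h4 : Algebra.IsSeparable M Ω := by
    have h5 : IntermediateField.adjoin M S ≤ separableClosure M Ω :=
      IntermediateField.adjoin_le_iff.mpr fun z hz => mem_separableClosure_iff.mpr (hsep z hz)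
    exact ⟨fun z => mem_separableClosure_iff.mp (h5 (hg z))⟩
  exact ⟨⟨⟩, h2⟩

/-- Transcendence over a smaller field. -/
lemma tr_sub {k L Ω : Type*} [Field k] [Field L] [Field Ω] [Algebra k Ω] [Algebra L Ω] (M : IntermediateField k Ω)
    (hM : ∀ m ∈ M, m ∈ Set.range (algebraMap L Ω)) {b : Ω} (hb : Transcendental L b) : Transcendental M b := by
  rintro ⟨p, hp, hpb⟩
  apply hb
  choose r hr using fun m : M => hM m m.2
  have hinj : Function.Injective (algebraMap L Ω) := (algebraMap L Ω).injective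
  let φ : M →+* L :=
    { toFun := r
      map_one' := hinj (by rw [hr, map_one]; rfl)
      map_mul' := fun x y => hinj (by rw [hr, map_mul, hr, hr]; rfl)
      map_zero' := hinj (by rw [hr, map_zero]; rfl)
      map_add' := fun x y => hinj (by rw [hr, map_add, hr, hr]; rfl) }
  have hφ : (algebraMap L Ω).comp φ = algebraMap M Ω := RingHom.ext fun m => hr m
  refine ⟨p.map φ, (Polynomial.map_ne_zero_iff φ.injective).mpr hp, ?_⟩
  rw [aeval_def, eval₂_map, hφ]
  exact hpb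

lemma aeval_mem' {k Ω : Type*} [Field k] [Field Ω] [Algebra k Ω] (M : IntermediateField k Ω) {z : Ω} (h : z ∈ M)
    (p : k[X]) : aeval z p ∈ M := by
  have h2 := Polynomial.aeval_algHom_apply M.val ⟨z, h⟩ p
  change aeval z p = _ at h2
  rw [h2]
  exact (aeval (⟨z, h⟩ : M) p).2

variable {k K L F Ω : Type u} [Field k] [Field K] [Field L] [Field F] [Field Ω] [Algebra k K] [Algebra K L]
  [Algebra k L] [Algebra L Ω] [Algebra K Ω] [Algebra k Ω] [Algebra k F] [Algebra F Ω] [IsScalarTower k K L]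
  [IsScalarTower k L Ω] [IsScalarTower k F Ω] [IsScalarTower K L Ω] [IsScalarTower k K Ω] [Good k] [Good L]
  [Good Ω] [Good K]

variable (k K L F Ω) in
/-- The data of the construction. -/
structure Ctx where
  D : CD k F
  B : Cfg L Ω
  hs : B.s = algebraMap F Ω D.s
  ht : B.t = algebraMap F Ω D.t
  τ : K
  hτ : algebraMap L Ω (algebraMap K L τ) = algebraMap F Ω D.τ
  hc : ∀ j, B.c j = aeval ((algebraMap K L τ) ^ 2) (D.c j)
  genK : IntermediateField.adjoin k {τ} = ⊤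
  genL : IntermediateField.adjoin k (insert (algebraMap K L τ) (Set.range B.v)) = ⊤

namespace Ctx

variable (Z : Ctx k K L F Ω)

abbrev e : F →ₐ[k] Ω := IsScalarTower.toAlgHom k F Ω
abbrev T : Ω := algebraMap F Ω Z.D.τ
abbrev X0 : Ω := xx Z.B.C Z.B.V 1 0 2 Z.B.s Z.B.t
abbrev Y0 : Ω := yy Z.B.C Z.B.V 1 0 2 Z.B.s Z.B.t
abbrev l : Ω := Z.T ^ 2
abbrev x : Ω := Z.l * Z.X0
abbrev y : Ω := Z.l * Z.T * Z.Y0
abbrev E : IntermediateField k Ω := IntermediateField.adjoin k {Z.l, Z.x, Z.y}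
abbrev E' : IntermediateField k Ω := IntermediateField.adjoin k {Z.T, Z.X0, Z.Y0}

lemma hC (j : Fin 10) : Z.B.C j = aeval (Z.T ^ 2) (Z.D.c j) := by
  change algebraMap L Ω (Z.B.c j) = _
  rw [Z.hc, ← aeval_algebraMap_apply, map_pow, Z.hτ]

lemma tr_T : Transcendental k Z.T := by
  have h := Pool.Agent.Helper70.KX.ind_fst Z.D.ind
  intro h1
  exact h ((isAlgebraic_algebraMap_iff (algebraMap F Ω).injective).mp h1)

lemma T_ne : Z.T ≠ 0 := by
  intro h
  apply Z.tr_T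
  rw [h]
  exact isAlgebraic_zero

lemma l_ne : Z.l ≠ 0 := pow_ne_zero 2 Z.T_ne

lemma C_mem {M : IntermediateField k Ω} (h : Z.T ^ 2 ∈ M) (j : Fin 10) : Z.B.C j ∈ M := by
  rw [Z.hC]
  exact aeval_mem' M h _

lemma roots {z : Ω} (h : bin Z.B.C z = 0) : ∃ i, z = Z.B.V i := by
  obtain ⟨h1, h2, h3⟩ := Z.B.hRC
  have key : Z.B.C 0 * ((z - Z.B.V 0) * (z - Z.B.V 1) * (z - Z.B.V 2)) = 0 := by
    rw [← h]
    unfold bin
    rw [h1, h2, h3]
    ring
  have hc0 : Z.B.C 0 ≠ 0 := (_root_.map_ne_zero _).mpr Z.B.c0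
  rcases mul_eq_zero.mp ((mul_eq_zero.mp key).resolve_left hc0) with h4 | h4
  · rcases mul_eq_zero.mp h4 with h5 | h5
    · exact ⟨0, sub_eq_zero.mp h5⟩
    · exact ⟨1, sub_eq_zero.mp h5⟩
  · exact ⟨2, sub_eq_zero.mp h4⟩

/-- Automorphisms fixing `τ ^ 2` permute the points at infinity. -/
lemma perm (g : Ω ≃ₐ[k] Ω) (h : g (Z.T ^ 2) = Z.T ^ 2) : (∀ j, g (Z.B.C j) = Z.B.C j) ∧
    ∃ σ : Fin 3 → Fin 3, Function.Injective σ ∧ ∀ j, g (Z.B.V j) = Z.B.V (σ j) := by
  have hgC : ∀ j, g (Z.B.C j) = Z.B.C j := by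
    intro j
    rw [Z.hC]
    have h2 := Polynomial.aeval_algHom_apply (g : Ω →ₐ[k] Ω) (Z.T ^ 2) (Z.D.c j)
    change aeval (g (Z.T ^ 2)) (Z.D.c j) = g _ at h2
    rw [← h2, h]
  refine ⟨hgC, ?_⟩
  have h1 : ∀ j, ∃ i, g (Z.B.V j) = Z.B.V i := by
    intro j
    apply Z.roots
    have h3 := congrArg g (Z.B.binC j)
    rw [map_zero] at h3
    rw [← h3]
    simp only [bin, map_add, map_mul, map_pow]
    have h0 := hgC 0
    have h1 := hgC 1
    have h3 := hgC 3
    have h6 := hgC 6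
    rw [h0, h1, h3, h6]
  choose σ hσ using h1
  refine ⟨σ, ?_, hσ⟩
  intro i j hij
  have h4 : g (Z.B.V i) = g (Z.B.V j) := by rw [hσ, hσ, hij]
  exact Z.B.hv ((algebraMap L Ω).injective (g.injective h4))

/-- Automorphisms with `τ ↦ ± τ` map `L` to itself. -/
lemma stable (g : Ω ≃ₐ[k] Ω) (h : g Z.T = Z.T ∨ g Z.T = - Z.T) (z : L) :
    g (algebraMap L Ω z) ∈ Set.range (algebraMap L Ω) := by
  have h2 : g (Z.T ^ 2) = Z.T ^ 2 := by
    rw [map_pow]
    rcases h with h | h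
    · rw [h]
    · rw [h, neg_sq]
  obtain ⟨-, σ, -, hσ⟩ := Z.perm g h2
  have hT : Z.T ∈ (IsScalarTower.toAlgHom k L Ω).fieldRange := ⟨_, Z.hτ⟩
  have key : ∀ z ∈ IntermediateField.adjoin k (insert (algebraMap K L Z.τ) (Set.range Z.B.v)),
      g (algebraMap L Ω z) ∈ (IsScalarTower.toAlgHom k L Ω).fieldRange := by
    intro z hz
    induction hz using IntermediateField.adjoin_induction with
    | mem x hx =>
      rcases hx with rfl | ⟨j, rfl⟩
      · rw [Z.hτ]
        rcases h with h | h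
        · change g Z.T ∈ _
          rw [h]; exact hT
        · change g Z.T ∈ _
          rw [h]; exact neg_mem hT
      · change g (Z.B.V j) ∈ _
        rw [hσ]
        exact ⟨_, rfl⟩
    | algebraMap x =>
      rw [← IsScalarTower.algebraMap_apply, AlgEquiv.commutes]
      exact algebraMap_mem _ x
    | add x y _ _ hx hy => rw [map_add, map_add]; exact add_mem hx hy
    | inv x _ hx => rw [map_inv₀, map_inv₀]; exact inv_mem hx
    | mul x y _ _ hx hy => rw [map_mul, map_mul]; exact mul_mem hx hy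
  exact key z (by rw [Z.genL]; exact IntermediateField.mem_top)

/-- A subfield containing `L` and the Weierstrass coordinates. -/
lemma top_of (N : IntermediateField k Ω) (hT : Z.T ∈ N) (hV : ∀ j, Z.B.V j ∈ N) (hX : Z.X0 ∈ N) (hY : Z.Y0 ∈ N)
    (z : Ω) : z ∈ N := by
  have hL : ∀ z : L, algebraMap L Ω z ∈ N := by
    intro z
    have hz : z ∈ IntermediateField.adjoin k (insert (algebraMap K L Z.τ) (Set.range Z.B.v)) := by
      rw [Z.genL]; exact IntermediateField.mem_top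
    induction hz using IntermediateField.adjoin_induction with
    | mem x hx =>
      rcases hx with rfl | ⟨j, rfl⟩
      · rw [Z.hτ]; exact hT
      · exact hV j
    | algebraMap x =>
      rw [← IsScalarTower.algebraMap_apply]
      exact algebraMap_mem _ x
    | add x y _ _ hx hy => rw [map_add]; exact add_mem hx hy
    | inv x _ hx => rw [map_inv₀]; exact inv_mem hx
    | mul x y _ _ hx hy => rw [map_mul]; exact mul_mem hx hy
  have hz : z ∈ IntermediateField.adjoin L {Z.X0, Z.Y0} := by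
    rw [Z.B.gen_xy (by decide) (by decide) (by decide)]; exact IntermediateField.mem_top
  induction hz using IntermediateField.adjoin_induction with
  | mem x hx =>
    rcases hx with rfl | rfl
    · exact hX
    · exact hY
  | algebraMap x => exact hL x
  | add x y _ _ hx hy => exact add_mem hx hy
  | inv x _ hx => exact inv_mem hx
  | mul x y _ _ hx hy => exact mul_mem hx hy

/-- The extension is Galois. -/
theorem gal (M : IntermediateField k Ω) (h2 : Z.T ^ 2 ∈ M)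
    (hx : ∀ N : IntermediateField k Ω, M ≤ N → Z.T ∈ N → Z.X0 ∈ N ∧ Z.Y0 ∈ N) :
    IsGalois M Ω ∧ FiniteDimensional M Ω := by
  obtain ⟨c, hc⟩ : ∃ c : Fin 10 → M, ∀ j, ((c j : M) : Ω) = Z.B.C j := ⟨fun j => ⟨_, Z.C_mem h2 j⟩, fun _ => rfl⟩
  obtain ⟨t, ht⟩ : ∃ t : M, (t : Ω) = Z.T ^ 2 := ⟨⟨_, h2⟩, rfl⟩
  have hc' : ∀ j, algebraMap M Ω (c j) = Z.B.C j := hc
  have ht' : algebraMap M Ω t = Z.T ^ 2 := ht
  have hc0 : Z.B.C 0 ≠ 0 := (_root_.map_ne_zero _).mpr Z.B.c0
  let p : M[X] := (X ^ 2 - Polynomial.C t) * (Polynomial.C (c 0) * X ^ 3 + Polynomial.C (c 1) * X ^ 2 +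
    Polynomial.C (c 3) * X + Polynomial.C (c 6))
  have hp : p.map (algebraMap M Ω) = ((X - Polynomial.C Z.T) * (X + Polynomial.C Z.T)) *
      (Polynomial.C (Z.B.C 0) * ((X - Polynomial.C (Z.B.V 0)) * (X - Polynomial.C (Z.B.V 1)) *
        (X - Polynomial.C (Z.B.V 2)))) := by
    obtain ⟨h3, h4, h5⟩ := Z.B.hRC
    simp only [p, Polynomial.map_mul, Polynomial.map_sub, Polynomial.map_add, Polynomial.map_pow, map_X, map_C, hc',
      ht', h3, h4, h5, map_mul, map_add, map_neg, map_pow]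
    ring
  have hpne : p ≠ 0 := by
    intro h0
    rw [h0, Polynomial.map_zero] at hp
    have h6 : ((X - Polynomial.C Z.T) * (X + Polynomial.C Z.T)) *
      (Polynomial.C (Z.B.C 0) * ((X - Polynomial.C (Z.B.V 0)) * (X - Polynomial.C (Z.B.V 1)) *
        (X - Polynomial.C (Z.B.V 2)))) ≠ 0 :=
      mul_ne_zero (mul_ne_zero (X_sub_C_ne_zero _) (X_add_C_ne_zero _)) (mul_ne_zero (C_ne_zero.mpr hc0)
        (mul_ne_zero (mul_ne_zero (X_sub_C_ne_zero _) (X_sub_C_ne_zero _)) (X_sub_C_ne_zero _)))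
    exact h6 hp.symm
  have : Good M := Good.ext k
  have hT0 : aeval Z.T (X ^ 2 - Polynomial.C t : M[X]) = 0 := by
    rw [map_sub, map_pow, aeval_X, aeval_C, ht', sub_self]
  have hV0 : ∀ j, aeval (Z.B.V j) (Polynomial.C (c 0) * X ^ 3 + Polynomial.C (c 1) * X ^ 2 +
      Polynomial.C (c 3) * X + Polynomial.C (c 6) : M[X]) = 0 := by
    intro j
    simp only [map_add, map_mul, map_pow, aeval_X, aeval_C, hc']
    exact Z.B.binC j
  have hp1 : (X ^ 2 - Polynomial.C t : M[X]) ≠ 0 := fun h => hpne (by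
    change (X ^ 2 - Polynomial.C t : M[X]) * _ = 0
    rw [h, zero_mul])
  have hp2 : (Polynomial.C (c 0) * X ^ 3 + Polynomial.C (c 1) * X ^ 2 +
      Polynomial.C (c 3) * X + Polynomial.C (c 6) : M[X]) ≠ 0 := fun h => hpne (by
    change (X ^ 2 - Polynomial.C t : M[X]) * (Polynomial.C (c 0) * X ^ 3 + Polynomial.C (c 1) * X ^ 2 +
      Polynomial.C (c 3) * X + Polynomial.C (c 6)) = 0
    rw [h, mul_zero])
  refine gal_of_splits p ?_ hpne (insert Z.T (Set.range Z.B.V)) ?_ ?_ ?_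
  · rw [hp]
    exact ((Splits.X_sub_C _).mul (Splits.X_add_C _)).mul ((Splits.C _).mul
      (((Splits.X_sub_C _).mul (Splits.X_sub_C _)).mul (Splits.X_sub_C _)))
  · intro z hz
    rw [aeval_def, ← eval_map, hp]
    simp only [eval_mul, eval_sub, eval_add, eval_X, eval_C]
    rcases hz with rfl | ⟨j, rfl⟩
    · simp
    · fin_cases j <;> simp
  · rintro z (rfl | ⟨j, rfl⟩)
    · exact sep_of_root hp1 (by compute_degree!) hT0
    · exact sep_of_root hp2 (by compute_degree!) (hV0 j)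
  · intro z
    let N : IntermediateField k Ω := (IntermediateField.adjoin M (insert Z.T (Set.range Z.B.V))).restrictScalars k
    have hMN : M ≤ N := fun m hm =>
      (IntermediateField.adjoin M (insert Z.T (Set.range Z.B.V))).algebraMap_mem (⟨m, hm⟩ : M)
    have hTN : Z.T ∈ N := IntermediateField.subset_adjoin M _ (Or.inl rfl)
    obtain ⟨h7, h8⟩ := hx N hMN hTN
    exact Z.top_of N hTN (fun j => IntermediateField.subset_adjoin M _ (Or.inr ⟨j, rfl⟩)) h7 h8 z

lemma galE : IsGalois Z.E Ω ∧ FiniteDimensional Z.E Ω := by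
  have hl : Z.l ∈ Z.E := IntermediateField.subset_adjoin k _ (by simp)
  have hx : Z.x ∈ Z.E := IntermediateField.subset_adjoin k _ (by simp)
  have hy : Z.y ∈ Z.E := IntermediateField.subset_adjoin k _ (by simp)
  refine Z.gal Z.E hl fun N hN hT => ⟨?_, ?_⟩
  · have : Z.X0 = Z.x / Z.l := by
      rw [eq_div_iff Z.l_ne, mul_comm]
    rw [this]
    exact div_mem (hN hx) (hN hl)
  · have : Z.Y0 = Z.y / (Z.l * Z.T) := by
      rw [eq_div_iff (mul_ne_zero Z.l_ne Z.T_ne), mul_comm]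
    rw [this]
    exact div_mem (hN hy) (mul_mem (hN hl) hT)

lemma galE' : IsGalois Z.E' Ω ∧ FiniteDimensional Z.E' Ω := by
  have hT : Z.T ∈ Z.E' := IntermediateField.subset_adjoin k _ (by simp)
  have hx : Z.X0 ∈ Z.E' := IntermediateField.subset_adjoin k _ (by simp)
  have hy : Z.Y0 ∈ Z.E' := IntermediateField.subset_adjoin k _ (by simp)
  exact Z.gal Z.E' (pow_mem hT 2) fun N hN _ => ⟨hN hx, hN hy⟩

include Z in
lemma ext_cd {f g : F →ₐ[k] Ω} (h1 : f Z.D.τ = g Z.D.τ) (h2 : f Z.D.s = g Z.D.s) (h3 : f Z.D.t = g Z.D.t) : f = g := by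
  apply AlgHom.ext
  intro z
  have hz : z ∈ IntermediateField.adjoin k {Z.D.τ, Z.D.s, Z.D.t} := by
    rw [Z.D.gen]; exact IntermediateField.mem_top
  induction hz using IntermediateField.adjoin_induction with
  | mem x hx =>
    rcases hx with rfl | rfl | rfl
    · exact h1
    · exact h2
    · exact h3
  | algebraMap x => rw [AlgHom.commutes, AlgHom.commutes]
  | add x y _ _ hx hy => rw [map_add, map_add, hx, hy]
  | inv x _ hx => rw [map_inv₀, map_inv₀, hx]
  | mul x y _ _ hx hy => rw [map_mul, map_mul, hx, hy]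

/-- The automorphisms fixing `τ, X, Y`. -/
theorem cls_pos (g : Ω ≃ₐ[k] Ω) (h1 : g Z.T = Z.T) (h2 : g Z.X0 = Z.X0) (h3 : g Z.Y0 = Z.Y0) :
    (g : Ω →ₐ[k] Ω).comp (e (k := k) (F := F)) = e ∨ ∃ ν ρ : Ω ≃ₐ[k] Ω, Ref k L Ω ν ∧ Ref k L Ω ρ ∧
      (g : Ω →ₐ[k] Ω).comp (e (k := k) (F := F)) = (ν : Ω →ₐ[k] Ω).comp ((ρ : Ω →ₐ[k] Ω).comp e) := by
  obtain ⟨hC, σ, hσ, hV⟩ := Z.perm g (by rw [map_pow, h1])
  have hT : Z.T = algebraMap L Ω (algebraMap K L Z.τ) := Z.hτ.symm
  rcases Z.B.class_pos g σ hσ hC hV h2 h3 with ⟨h4, h5⟩ | ⟨ν, ρ, hν, hρ, h4, h5⟩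
  · left
    rw [Z.hs] at h4
    rw [Z.ht] at h5
    exact Z.ext_cd h1 h4 h5
  · right
    refine ⟨ν, ρ, hν, hρ, ?_⟩
    rw [Z.hs] at h4
    rw [Z.ht] at h5
    refine Z.ext_cd ?_ h4 h5
    change g Z.T = ν (ρ Z.T)
    rw [h1, hT, hρ.fix, hν.fix]

/-- The automorphisms `τ ↦ - τ, X ↦ X, Y ↦ - Y`. -/
theorem cls_neg (g : Ω ≃ₐ[k] Ω) (h1 : g Z.T = - Z.T) (h2 : g Z.X0 = Z.X0) (h3 : g Z.Y0 = - Z.Y0) :
    ∃ R : Ω ≃ₐ[k] Ω, Ref k L Ω R ∧ (g : Ω →ₐ[k] Ω).comp (e (k := k) (F := F)) =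
      (R : Ω →ₐ[k] Ω).comp (e.comp ((Z.D.ι : F ≃ₐ[k] F) : F →ₐ[k] F)) := by
  obtain ⟨hC, σ, hσ, hV⟩ := Z.perm g (by rw [map_pow, h1, neg_sq])
  have hT : Z.T = algebraMap L Ω (algebraMap K L Z.τ) := Z.hτ.symm
  obtain ⟨R, hR, h4, h5⟩ := Z.B.class_neg g σ hσ hC hV h2 h3
  refine ⟨R, hR, ?_⟩
  rw [Z.hs] at h4
  rw [Z.ht] at h5
  refine Z.ext_cd ?_ ?_ ?_
  · change g Z.T = R (algebraMap F Ω (Z.D.ι Z.D.τ))
    rw [Z.D.ιτ, map_neg, map_neg, h1]
    change - Z.T = - R Z.T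
    rw [hT, hR.fix]
  · change g _ = R (algebraMap F Ω (Z.D.ι Z.D.s))
    rw [Z.D.ιs]; exact h4
  · change g _ = R (algebraMap F Ω (Z.D.ι Z.D.t))
    rw [Z.D.ιt]; exact h5

/-- The signs. -/
lemma sgn (g : Ω ≃ₐ[k] Ω) (h1 : g Z.l = Z.l) (h2 : g Z.x = Z.x) (h3 : g Z.y = Z.y) :
    (g Z.T = Z.T ∧ g Z.X0 = Z.X0 ∧ g Z.Y0 = Z.Y0) ∨ (g Z.T = - Z.T ∧ g Z.X0 = Z.X0 ∧ g Z.Y0 = - Z.Y0) := by
  have h4 : g Z.T = Z.T ∨ g Z.T = - Z.T := by
    rw [← sq_eq_sq_iff_eq_or_eq_neg, ← map_pow]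
    exact h1
  have h5 : g Z.X0 = Z.X0 := by
    have h6 : Z.l * g Z.X0 = Z.l * Z.X0 := by
      have := h2
      rw [map_mul, h1] at this
      exact this
    exact mul_left_cancel₀ Z.l_ne h6
  have h7 : Z.l * g Z.T * g Z.Y0 = Z.l * Z.T * Z.Y0 := by
    have := h3
    rw [map_mul, map_mul, h1] at this
    exact this
  rcases h4 with h4 | h4
  · left
    refine ⟨h4, h5, ?_⟩
    rw [h4] at h7
    exact mul_left_cancel₀ (mul_ne_zero Z.l_ne Z.T_ne) h7
  · right
    refine ⟨h4, h5, ?_⟩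
    rw [h4] at h7
    refine mul_left_cancel₀ (mul_ne_zero Z.l_ne Z.T_ne) ?_
    linear_combination - h7

end Ctx

end Pool.Agent.Helper67.KP

end CX
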